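import Pool.Agent.Lib.MP_4332cb_co.Menger

/-!
Rooted complete minors: definitions.
`Cn G S` : `S` is a nonempty connected set of vertices, `RI G S x y` : `x`, `y` joined inside `S`
(both from `Lib/MP_4332cb_co/Conn`).
-/

namespace Pool.Agent.Lib.MP_09e206_co

open Pool.Agent.Lib.MP_4332cb_co

variable {V : Type*}

/-- `G` has an `X`-rooted model of the complete graph on `m` vertices -/
def RK (G : SimpleGraph V) (X : Set V) (m : ℕ) : Prop :=
  ∃ f : Fin m → Set V, (∀ i, Cn G (f i)) ∧ (∀ i j, i ≠ j → Disjoint (f i) (f j)) ∧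
    (∀ i j, i ≠ j → ∃ u ∈ f i, ∃ v ∈ f j, G.Adj u v) ∧ ∀ i, (f i ∩ X).Nonempty

/-- partial model of the complete graph on `t` vertices with respect to the set `Z`: a branch set is
either inner (connected, disjoint from `Z`) or outer (meets `Z` and each of its vertices is joined
inside it to a vertex of `Z`); two outer branch sets need not be adjacent -/
structure PM (G : SimpleGraph V) (Z : Set V) {t : ℕ} (D : Fin t → Set V) : Prop where
  ne : ∀ i, (D i).Nonempty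
  disj : ∀ i j, i ≠ j → Disjoint (D i) (D j)
  conn : ∀ i, Disjoint (D i) Z → Cn G (D i)
  out : ∀ i, ¬ Disjoint (D i) Z → ∀ x ∈ D i, ∃ z ∈ D i ∩ Z, RI G (D i) x z
  adj : ∀ i j, i ≠ j → Disjoint (D i) Z → ∃ u ∈ D i, ∃ v ∈ D j, G.Adj u v

/-- no set of fewer than `z` vertices separates `Z` from an inner branch set -/
def NS (G : SimpleGraph V) (Z : Set V) {t : ℕ} (D : Fin t → Set V) (z : ℕ) : Prop :=
  ∀ S : Finset V, S.card < z → ∀ i, Disjoint (D i) Z → Disjoint (D i) (S : Set V) →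
    ∃ a ∈ Z, a ∉ S ∧ ∃ d ∈ D i, RI G ((S : Set V)ᶜ) a d

/-- the edges of `G` inside `B` -/
def resG (G : SimpleGraph V) (B : Set V) : SimpleGraph V where
  Adj u v := G.Adj u v ∧ u ∈ B ∧ v ∈ B
  symm := ⟨fun _ _ h => ⟨h.1.symm, h.2.2, h.2.1⟩⟩
  loopless := ⟨fun _ h => h.1.ne rfl⟩

/-- the far side of the separator `S` seen from `X` -/
def farS (G : SimpleGraph V) (X : Set V) (S : Finset V) : Set V :=
  {v | v ∉ S ∧ ∀ a ∈ X, a ∉ S → ¬ RI G ((S : Set V)ᶜ) a v}

/-- contraction of the edge `xy` to `x`; the vertex `y` becomes isolated -/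
def ctr (G : SimpleGraph V) (x y : V) : SimpleGraph V where
  Adj u v := u ≠ v ∧ u ≠ y ∧ v ≠ y ∧ (G.Adj u v ∨ (u = x ∧ G.Adj y v) ∨ (v = x ∧ G.Adj y u))
  symm := ⟨by
    rintro u v ⟨h1, h2, h3, h4 | h4 | h4⟩
    · exact ⟨h1.symm, h3, h2, Or.inl h4.symm⟩
    · exact ⟨h1.symm, h3, h2, Or.inr (Or.inr h4)⟩
    · exact ⟨h1.symm, h3, h2, Or.inr (Or.inl h4)⟩⟩
  loopless := ⟨fun _ h => h.1 rfl⟩

/-- `G` is `k`-colourable and every proper `k`-colouring uses all `k` colours on `X`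
(the situation of Holroyd's conjecture) -/
def PK (k : ℕ) (G : SimpleGraph V) (X : Set V) : Prop :=
  Nonempty (G.Coloring (Fin k)) ∧ ∀ c : G.Coloring (Fin k), ∀ j : Fin k, ∃ x ∈ X, c x = j

/-- full model of the complete graph on `t` vertices is a partial model -/
lemma PM_of_model {G : SimpleGraph V} {t : ℕ} {D : Fin t → Set V} (h1 : ∀ i, Cn G (D i))
    (h2 : ∀ i j, i ≠ j → Disjoint (D i) (D j))
    (h3 : ∀ i j, i ≠ j → ∃ u ∈ D i, ∃ v ∈ D j, G.Adj u v) (Z : Set V) : PM G Z D where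
  ne i := (h1 i).1
  disj := h2
  conn i _ := h1 i
  out := by
    intro i hi x hx
    rw [Set.not_disjoint_iff] at hi
    obtain ⟨z, hz, hzZ⟩ := hi
    exact ⟨z, ⟨hz, hzZ⟩, (h1 i).2 x hx z hz⟩
  adj i j hij _ := h3 i j hij

lemma resG_le (G : SimpleGraph V) (B : Set V) : resG G B ≤ G := fun _ _ h => h.1

end Pool.Agent.Lib.MP_09e206_co
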