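import Pool.Agent.Lib.MP_09e206_co.L.Defs

namespace Pool.Agent.Lib.MP_09e206_co

open Pool.Agent.Lib.MP_4332cb_co

variable {V : Type*}

/-- disjoint sets, as many as the elements of `Z`, each meeting `Z`: each contains exactly one -/
lemma sdr1 {Z : Finset V} {f : Fin Z.card → Set V} (h2 : ∀ i j, i ≠ j → Disjoint (f i) (f j))
    (h4 : ∀ i, (f i ∩ (Z : Set V)).Nonempty) :
    ∃ a : Fin Z.card → V, (∀ i, f i ∩ (Z : Set V) = {a i}) ∧ ∀ s ∈ Z, ∃ i, a i = s := by
  classical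
  choose a ha using h4
  have hinj : Function.Injective a := by
    intro i j hij
    by_contra hne
    have h1 := (ha i).1
    rw [hij] at h1
    exact Set.disjoint_left.1 (h2 i j hne) h1 (ha j).1
  have himg : Finset.univ.image a = Z := by
    apply Finset.eq_of_subset_of_card_le
    · intro x hx
      rw [Finset.mem_image] at hx
      obtain ⟨i, _, rfl⟩ := hx
      exact (ha i).2
    · rw [Finset.card_image_of_injective _ hinj]
      simp
  have hsurj : ∀ s ∈ Z, ∃ i, a i = s := by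
    intro s hs
    rw [← himg, Finset.mem_image] at hs
    obtain ⟨i, _, hi⟩ := hs
    exact ⟨i, hi⟩
  refine ⟨a, ?_, hsurj⟩
  intro i
  ext x
  constructor
  · rintro ⟨hx, hxZ⟩
    obtain ⟨j, rfl⟩ := hsurj x hxZ
    by_cases hij : i = j
    · rw [hij]; rfl
    · exact absurd (ha j).1 (Set.disjoint_left.1 (h2 i j hij) hx)
  · intro hx
    have : x = a i := hx
    rw [this]
    exact ha i

/-- [P1] -/
theorem RK_rooted {G : SimpleGraph V} {Z : Finset V} (h : RK G (Z : Set V) Z.card) :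
    ∃ f : V → Set V, (∀ s ∈ Z, Cn G (f s) ∧ s ∈ f s ∧ f s ∩ (Z : Set V) = {s}) ∧
      ∀ s ∈ Z, ∀ s' ∈ Z, s ≠ s' → Disjoint (f s) (f s') ∧ ∃ u ∈ f s, ∃ v ∈ f s', G.Adj u v := by
  classical
  obtain ⟨f, h1, h2, h3, h4⟩ := h
  obtain ⟨a, ha, hs⟩ := sdr1 h2 h4
  by_cases hZ : Z = ∅
  · subst hZ
    exact ⟨fun _ => ∅, fun s hs => absurd hs (Finset.notMem_empty _),
      fun s hs => absurd hs (Finset.notMem_empty _)⟩
  obtain ⟨s0, hs0⟩ := Finset.nonempty_iff_ne_empty.2 hZ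
  obtain ⟨i0, _⟩ := hs s0 hs0
  haveI : Nonempty (Fin Z.card) := ⟨i0⟩
  choose! i hi using hs
  refine ⟨fun s => f (i s), ?_, ?_⟩
  · intro s hs
    have h5 := ha (i s)
    rw [hi s hs] at h5
    refine ⟨h1 _, ?_, h5⟩
    have : s ∈ f (i s) ∩ (Z : Set V) := by rw [h5]; rfl
    exact this.1
  · intro s hs s' hs' hne
    have hne' : i s ≠ i s' := by
      intro h
      apply hne
      rw [← hi s hs, ← hi s' hs', h]
    exact ⟨h2 _ _ hne', h3 _ _ hne'⟩

end Pool.Agent.Lib.MP_09e206_co
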