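import Pool.Agent.Lib.MP_09e206_co.L.Defs
import Pool.Agent.Lib.MP_09e206_co.L.P1

namespace Pool.Agent.Lib.MP_09e206_co

open Pool.Agent.Lib.MP_4332cb_co

variable {V : Type*}

lemma resG_subset10 {G : SimpleGraph V} {B T : Set V} {s : V} (hT : Cn (resG G B) T) (hs : s ∈ T)
    (hB : s ∈ B) : T ⊆ B := by
  intro x hx
  have h := hT.2 s hs x hx
  induction h with
  | refl => exact hB
  | tail h1 h2 _ => exact h2.1.2.2

lemma farS_nbr10 {G : SimpleGraph V} {X : Set V} {S : Finset V} {u v : V} (hu : u ∈ farS G X S)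
    (h : G.Adj u v) (hv : v ∉ S) : v ∈ farS G X S := by
  refine ⟨hv, fun a ha haS hr => hu.2 a ha haS ?_⟩
  exact hr.trans (RI.single h.symm (by simpa using hv) (by simpa using hu.1))

/-- [P10] the contraction at a small separator -/
theorem sep_step {W : Type} [Fintype W] {G : SimpleGraph W} {X : Set W} {k : ℕ} (hk : PK k G X)
    (S : Finset W) (hlt : (farS G X S).Nonempty)
    (h : RK (resG G (farS G X S ∪ S)) (S : Set W) S.card) :
    ∃ (W' : Type) (_ : Fintype W') (G' : SimpleGraph W') (X' : Set W'),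
      Fintype.card W' < Fintype.card W ∧ PK k G' X' ∧ ∀ m, RK G' X' m → RK G X m := by
  classical
  obtain ⟨⟨c⟩, hall⟩ := hk
  set F : Set W := farS G X S with hF
  have hFS : ∀ v ∈ F, v ∉ S := fun v hv => hv.1
  have hXF : ∀ x ∈ X, x ∉ F := by
    intro x hx hxF
    exact hxF.2 x hx hxF.1 (RI.refl _)
  -- representatives
  have hr : ∀ j : Fin k, ∃ r : W, (∃ s ∈ S, c s = j) → r ∈ S ∧ c r = j := by
    intro j
    by_cases hj : ∃ s ∈ S, c s = j
    · obtain ⟨s, hs, hc⟩ := hj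
      exact ⟨s, fun _ => ⟨hs, hc⟩⟩
    · obtain ⟨x, _⟩ := hlt
      exact ⟨x, fun h => absurd h hj⟩
  choose r hr using hr
  set ρ : W → W := fun v => if v ∈ S then r (c v) else v with hρ
  have hρS : ∀ v ∈ S, ρ v ∈ S ∧ c (ρ v) = c v := by
    intro v hv
    have := hr (c v) ⟨v, hv, rfl⟩
    simp only [hρ, if_pos hv]
    exact this
  have hρn : ∀ v, v ∉ S → ρ v = v := by
    intro v hv
    simp only [hρ, if_neg hv]
  have hρc : ∀ v, c (ρ v) = c v := by
    intro v
    by_cases hv : v ∈ S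
    · exact (hρS v hv).2
    · rw [hρn v hv]
  have hρe : ∀ u ∈ S, ∀ v ∈ S, c u = c v → ρ u = ρ v := by
    intro u hu v hv huv
    simp only [hρ, if_pos hu, if_pos hv, huv]
  have hρρ : ∀ v, ρ (ρ v) = ρ v := by
    intro v
    by_cases hv : v ∈ S
    · exact hρe _ (hρS v hv).1 _ hv (hρS v hv).2
    · rw [hρn v hv, hρn v hv]
  have hρF : ∀ v, v ∉ F → ρ v ∉ F := by
    intro v hv
    by_cases hvS : v ∈ S
    · exact fun h => hFS _ h (hρS v hvS).1
    · rw [hρn v hvS]; exact hv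
  have hρne : ∀ u v, G.Adj u v → ρ u ≠ ρ v := by
    intro u v huv he
    have h1 : c u = c v := by rw [← hρc u, ← hρc v, he]
    exact c.valid huv h1
  let W' := {v : W // v ∉ F ∧ ρ v = v}
  let mk : ∀ v : W, v ∉ F → W' := fun v hv => ⟨ρ v, hρF v hv, hρρ v⟩
  let G' : SimpleGraph W' :=
    { Adj := fun u v => u ≠ v ∧ ((∃ u' v', u' ∉ F ∧ v' ∉ F ∧ ρ u' = u.1 ∧ ρ v' = v.1 ∧ G.Adj u' v') ∨
        (u.1 ∈ S ∧ v.1 ∈ S))
      symm := ⟨by
        rintro u v ⟨h1, ⟨u', v', a1, a2, a3, a4, a5⟩ | ⟨h2, h3⟩⟩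
        · exact ⟨h1.symm, Or.inl ⟨v', u', a2, a1, a4, a3, a5.symm⟩⟩
        · exact ⟨h1.symm, Or.inr ⟨h3, h2⟩⟩⟩
      loopless := ⟨fun _ h => h.1 rfl⟩ }
  let X' : Set W' := {v | ∃ x ∈ X, ρ x = v.1}
  refine ⟨W', inferInstance, G', X', ?_, ⟨?_, ?_⟩, ?_⟩
  · obtain ⟨x, hx⟩ := hlt
    exact Fintype.card_subtype_lt (x := x) (fun h => h.1 hx)
  · refine ⟨SimpleGraph.Coloring.mk (fun v => c v.1) ?_⟩
    rintro u v ⟨h1, ⟨u', v', _, _, a3, a4, a5⟩ | ⟨h2, h3⟩⟩
    · show c u.1 ≠ c v.1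
      rw [← a3, ← a4, hρc, hρc]
      exact c.valid a5
    · show c u.1 ≠ c v.1
      intro he
      apply h1
      apply Subtype.ext
      rw [← u.2.2, ← v.2.2]
      exact hρe _ h2 _ h3 he
  · intro g j
    -- the permutation
    let p : Fin k → Prop := fun j => ∃ s ∈ S, c s = j
    have hrS : ∀ j, p j → r j ∈ S := fun j hj => (hr j hj).1
    have hrF : ∀ j, p j → r j ∉ F := fun j hj h => hFS _ h (hrS j hj)
    have hrr : ∀ j, p j → ρ (r j) = r j := by
      intro j hj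
      have h1 := hrS j hj
      show (if r j ∈ S then r (c (r j)) else r j) = r j
      rw [if_pos h1, (hr j hj).2]
    let τ : {j // p j} → Fin k := fun j => g ⟨r j.1, hrF j.1 j.2, hrr j.1 j.2⟩
    have hτ : Function.Injective τ := by
      intro i j hij
      by_contra hne
      have hne' : i.1 ≠ j.1 := fun h => hne (Subtype.ext h)
      have hadj : G'.Adj ⟨r i.1, hrF i.1 i.2, hrr i.1 i.2⟩ ⟨r j.1, hrF j.1 j.2, hrr j.1 j.2⟩ := by
        refine ⟨?_, Or.inr ⟨hrS _ i.2, hrS _ j.2⟩⟩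
        intro h
        have h1 : r i.1 = r j.1 := congrArg Subtype.val h
        apply hne'
        rw [← (hr i.1 i.2).2, ← (hr j.1 j.2).2, h1]
      exact g.valid hadj hij
    let σ : Equiv.Perm (Fin k) := (Equiv.ofInjective τ hτ).extendSubtype
    have hσ : ∀ j (hj : p j), σ j = τ ⟨j, hj⟩ := by
      intro j hj
      exact Equiv.extendSubtype_apply_of_mem (Equiv.ofInjective τ hτ) j hj
    let φ : W → Fin k := fun v => if hv : v ∈ F then σ (c v) else g (mk v hv)
    have hφF : ∀ v, v ∈ F → φ v = σ (c v) := fun v hv => dif_pos hv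
    have hφn : ∀ v (hv : v ∉ F), φ v = g (mk v hv) := fun v hv => dif_neg hv
    have hφS : ∀ v ∈ S, φ v = σ (c v) := by
      intro v hv
      have hvF : v ∉ F := fun h => hFS v h hv
      have hp : p (c v) := ⟨v, hv, rfl⟩
      rw [hφn v hvF, hσ _ hp]
      show g (mk v hvF) = g _
      congr 1
      apply Subtype.ext
      show ρ v = r (c v)
      simp only [hρ, if_pos hv]
    have hφ : ∀ u v, G.Adj u v → φ u ≠ φ v := by
      have key : ∀ u v, G.Adj u v → u ∈ F → φ u ≠ φ v := by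
        intro u v huv hu
        have hv : φ v = σ (c v) := by
          by_cases hvS : v ∈ S
          · exact hφS v hvS
          · exact hφF v (farS_nbr10 hu huv hvS)
        rw [hφF u hu, hv]
        exact fun h => c.valid huv (σ.injective h)
      intro u v huv
      by_cases hu : u ∈ F
      · exact key u v huv hu
      · by_cases hv : v ∈ F
        · exact (key v u huv.symm hv).symm
        · rw [hφn u hu, hφn v hv]
          refine g.valid ⟨?_, Or.inl ⟨u, v, hu, hv, rfl, rfl, huv⟩⟩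
          intro h
          exact hρne u v huv (congrArg Subtype.val h)
    obtain ⟨x, hx, hxj⟩ := hall (SimpleGraph.Coloring.mk φ (fun {u v} huv => hφ u v huv)) j
    have hxF := hXF x hx
    refine ⟨mk x hxF, ⟨x, hx, rfl⟩, ?_⟩
    have h1 : φ x = j := hxj
    rw [← h1, hφn x hxF]
  · -- lifting
    obtain ⟨f, hf1, hf2⟩ := RK_rooted h
    have hfsub : ∀ s ∈ S, f s ⊆ F ∪ S := fun s hs =>
      resG_subset10 (hf1 s hs).1 (hf1 s hs).2.1 (Or.inr hs)
    have hfG : ∀ s ∈ S, Cn G (f s) := fun s hs =>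
      (hf1 s hs).1.mono_graph (fun _ _ _ _ h => resG_le _ _ h)
    let M : W' → Set W := fun v => if v.1 ∈ S then f v.1 ∪ ⋃ (s : {s // s ∈ S ∧ ρ s = v.1}), f s.1
      else {v.1}
    have hMS : ∀ v : W', v.1 ∈ S → M v = f v.1 ∪ ⋃ (s : {s // s ∈ S ∧ ρ s = v.1}), f s.1 :=
      fun v hv => if_pos hv
    have hMn : ∀ v : W', v.1 ∉ S → M v = {v.1} := fun v hv => if_neg hv
    have hMmem : ∀ (v : W') (x : W), x ∈ M v → v.1 ∈ S → ∃ s ∈ S, ρ s = v.1 ∧ x ∈ f s := by
      intro v x hx hv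
      rw [hMS v hv] at hx
      rcases hx with hx | hx
      · exact ⟨v.1, hv, v.2.2, hx⟩
      · rw [Set.mem_iUnion] at hx
        obtain ⟨s, hs⟩ := hx
        exact ⟨s.1, s.2.1, s.2.2, hs⟩
    have hMin : ∀ (v : W') (s : W), v.1 ∈ S → s ∈ S → ρ s = v.1 → f s ⊆ M v := by
      intro v s hv hs he x hx
      rw [hMS v hv]
      exact Or.inr (Set.mem_iUnion.2 ⟨⟨s, hs, he⟩, hx⟩)
    have hM1 : ∀ v, Cn G (M v) := by
      intro v
      by_cases hv : v.1 ∈ S
      · rw [hMS v hv]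
        refine (hfG _ hv).union_iUnion _ (fun s => hfG _ s.2.1) ?_
        intro s
        by_cases he : v.1 = s.1
        · refine ⟨v.1, (hf1 _ hv).2.1, v.1, ?_, Or.inr rfl⟩
          rw [← he]
          exact (hf1 _ hv).2.1
        · obtain ⟨_, x, hx, y, hy, hxy⟩ := hf2 _ hv _ s.2.1 he
          exact ⟨x, hx, y, hy, Or.inl hxy.1⟩
      · rw [hMn v hv]
        exact Cn_singleton G _
    have hM2 : ∀ u v, u ≠ v → Disjoint (M u) (M v) := by
      have key : ∀ u v : W', u.1 ∈ S → v.1 ∉ S → Disjoint (M u) (M v) := by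
        intro u v hu hv
        rw [Set.disjoint_left]
        intro x hx hx'
        rw [hMn v hv] at hx'
        obtain ⟨s, hs, _, hxs⟩ := hMmem u x hx hu
        have hxv : x = v.1 := hx'
        rcases hfsub s hs hxs with h1 | h1
        · rw [hxv] at h1
          exact v.2.1 h1
        · rw [hxv] at h1
          exact hv h1
      intro u v huv
      by_cases hu : u.1 ∈ S
      · by_cases hv : v.1 ∈ S
        · rw [Set.disjoint_left]
          intro x hx hx'
          obtain ⟨s, hs, hse, hxs⟩ := hMmem u x hx hu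
          obtain ⟨s', hs', hse', hxs'⟩ := hMmem v x hx' hv
          have hne : s ≠ s' := by
            rintro rfl
            exact huv (Subtype.ext (hse.symm.trans hse'))
          exact Set.disjoint_left.1 (hf2 s hs s' hs' hne).1 hxs hxs'
        · exact key u v hu hv
      · by_cases hv : v.1 ∈ S
        · exact (key v u hv hu).symm
        · rw [hMn u hu, hMn v hv, Set.disjoint_singleton]
          exact fun h => huv (Subtype.ext h)
    have hM4 : ∀ (v : W') (x : W), x ∉ F → ρ x = v.1 → x ∈ M v := by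
      intro v x hx hxv
      by_cases hxS : x ∈ S
      · have hv : v.1 ∈ S := by rw [← hxv]; exact (hρS x hxS).1
        exact hMin v x hv hxS hxv (hf1 x hxS).2.1
      · have h1 : x = v.1 := by rw [← hxv, hρn x hxS]
        have hv : v.1 ∉ S := by rw [← h1]; exact hxS
        rw [hMn v hv]
        exact h1
    have hM3 : ∀ u v, G'.Adj u v → ∃ x ∈ M u, ∃ y ∈ M v, G.Adj x y := by
      rintro u v ⟨h1, ⟨u', v', a1, a2, a3, a4, a5⟩ | ⟨h2, h3⟩⟩
      · exact ⟨u', hM4 u u' a1 a3, v', hM4 v v' a2 a4, a5⟩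
      · have hne : u.1 ≠ v.1 := fun h => h1 (Subtype.ext h)
        obtain ⟨_, x, hx, y, hy, hxy⟩ := hf2 _ h2 _ h3 hne
        exact ⟨x, hMin u u.1 h2 h2 u.2.2 hx, y, hMin v v.1 h3 h3 v.2.2 hy, hxy.1⟩
    rintro m ⟨b, b1, b2, b3, b4⟩
    refine ⟨fun i => ⋃ w ∈ b i, M w, ?_, ?_, ?_, ?_⟩
    · intro i
      exact Cn_biUnion (fun w _ => hM1 w) (fun u _ w _ h => hM3 u w h) (b1 i)
    · intro i j hij
      rw [Set.disjoint_left]
      intro x hx hx'
      rw [Set.mem_iUnion₂] at hx hx'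
      obtain ⟨w, hw, hxw⟩ := hx
      obtain ⟨w', hw', hxw'⟩ := hx'
      have hne : w ≠ w' := by
        rintro rfl
        exact Set.disjoint_left.1 (b2 i j hij) hw hw'
      exact Set.disjoint_left.1 (hM2 w w' hne) hxw hxw'
    · intro i j hij
      obtain ⟨u, hu, v, hv, huv⟩ := b3 i j hij
      obtain ⟨x, hx, y, hy, hxy⟩ := hM3 u v huv
      exact ⟨x, Set.mem_biUnion hu hx, y, Set.mem_biUnion hv hy, hxy⟩
    · intro i
      obtain ⟨v, hv, x, hx, hxv⟩ := b4 i
      exact ⟨x, Set.mem_biUnion hv (hM4 v x (hXF x hx) hxv), hx⟩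

end Pool.Agent.Lib.MP_09e206_co
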