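import Pool.Agent.Lib.MP_09e206_co.L.Defs

namespace Pool.Agent.Lib.MP_09e206_co

open Pool.Agent.Lib.MP_4332cb_co

variable {V : Type*}

private lemma FN_step {G : SimpleGraph V} {X : Set V} {S : Finset V} {v w : V}
    (hv : v ∈ farS G X S) (h : G.Adj v w) (hw : w ∉ S) : w ∈ farS G X S := by
  refine ⟨hw, fun a ha haS hr => hv.2 a ha haS ?_⟩
  exact hr.trans (RI.single h.symm (by simpa using hw) (by simpa using hv.1))

private lemma FN_X {G : SimpleGraph V} {X : Set V} {S : Finset V} {v : V}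
    (hv : v ∈ farS G X S) (hX : v ∈ X) : False := hv.2 v hX hv.1 (RI.refl v)

private lemma FN_RI {G : SimpleGraph V} {X : Set V} {S : Finset V} {T : Set V} {v w : V}
    (hT : ∀ x ∈ T, x ∉ S) (hv : v ∈ farS G X S) (h : RI G T v w) : w ∈ farS G X S := by
  induction h with
  | refl => exact hv
  | tail _ h2 ih => exact FN_step ih h2.1 (hT _ h2.2.2)

/-- follow a path from the far side until it meets the separator -/
private lemma FN_path {G : SimpleGraph V} {X : Set V} {S : Finset V} {T : Set V} {x y : V}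
    (h : RI G T x y) (hx : x ∈ farS G X S) (hy : y ∉ farS G X S) :
    ∃ z ∈ T, z ∈ S ∧ RI (resG G (farS G X S ∪ S)) (T ∩ (farS G X S ∪ S)) x z := by
  induction h using Relation.ReflTransGen.head_induction_on with
  | refl => exact absurd hx hy
  | @head a b h1 _ ih =>
    by_cases hb : b ∈ S
    · have e : (resG G (farS G X S ∪ S)).Adj a b := ⟨h1.1, Or.inl hx, Or.inr hb⟩
      exact ⟨b, h1.2.2, hb, RI.single e ⟨h1.2.1, Or.inl hx⟩ ⟨h1.2.2, Or.inr hb⟩⟩
    · have hb' := FN_step hx h1.1 hb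
      obtain ⟨z, hz, hzS, hr⟩ := ih hb'
      have e : (resG G (farS G X S ∪ S)).Adj a b := ⟨h1.1, Or.inl hx, Or.inl hb'⟩
      exact ⟨z, hz, hzS, (RI.single (S := T ∩ (farS G X S ∪ S)) e ⟨h1.2.1, Or.inl hx⟩
        ⟨h1.2.2, Or.inl hb'⟩).trans hr⟩

private lemma FN_sub0 {G : SimpleGraph V} {X : Set V} {t : ℕ} {D : Fin t → Set V}
    (S : Finset V) (i0 : Fin t) (h0S : Disjoint (D i0) (S : Set V))
    (hsep : ∀ a ∈ X, a ∉ S → ∀ d ∈ D i0, ¬ RI G ((S : Set V)ᶜ) a d) :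
    D i0 ⊆ farS G X S := fun d hd =>
  ⟨fun h => Set.disjoint_left.1 h0S hd h, fun a ha haS => hsep a ha haS d hd⟩

private lemma FN_ne {G : SimpleGraph V} {X : Set V} {t : ℕ} {D : Fin t → Set V} (hPM : PM G X D)
    (S : Finset V) (i0 : Fin t) (h0 : Disjoint (D i0) X) (h0S : Disjoint (D i0) (S : Set V))
    (hsep : ∀ a ∈ X, a ∉ S → ∀ d ∈ D i0, ¬ RI G ((S : Set V)ᶜ) a d) (i : Fin t) :
    (D i ∩ (farS G X S ∪ S)).Nonempty := by
  have hsub := FN_sub0 S i0 h0S hsep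
  by_cases hi : i0 = i
  · subst hi
    obtain ⟨x, hx⟩ := hPM.ne i0
    exact ⟨x, hx, Or.inl (hsub hx)⟩
  · obtain ⟨u, hu, v, hv, huv⟩ := hPM.adj i0 i hi h0
    by_cases hvS : v ∈ S
    · exact ⟨v, hv, Or.inr hvS⟩
    · exact ⟨v, hv, Or.inl (FN_step (hsub hu) huv hvS)⟩

/-- an inner branch set of the restricted model is an inner branch set, inside the far side -/
private lemma FN_inner {G : SimpleGraph V} {X : Set V} {t : ℕ} {D : Fin t → Set V} (hPM : PM G X D)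
    (S : Finset V) (i0 : Fin t) (h0 : Disjoint (D i0) X) (h0S : Disjoint (D i0) (S : Set V))
    (hsep : ∀ a ∈ X, a ∉ S → ∀ d ∈ D i0, ¬ RI G ((S : Set V)ᶜ) a d) (i : Fin t)
    (hi : Disjoint (D i ∩ (farS G X S ∪ S)) (S : Set V)) :
    D i ⊆ farS G X S ∧ Disjoint (D i) X := by
  have hT : ∀ x ∈ D i, x ∉ S := fun x hx hxS =>
    Set.disjoint_left.1 hi ⟨hx, Or.inr hxS⟩ hxS
  obtain ⟨v, hv, hvB⟩ := FN_ne hPM S i0 h0 h0S hsep i
  have hvf : v ∈ farS G X S := hvB.resolve_right (hT v hv)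
  have hX : Disjoint (D i) X := by
    by_contra hcon
    obtain ⟨z, ⟨hz, hzX⟩, hr⟩ := hPM.out i hcon v hv
    exact FN_X (FN_RI hT hvf hr) hzX
  refine ⟨fun w hw => FN_RI hT hvf ((hPM.conn i hX).2 v hv w hw), hX⟩

/-- [P3] -/
theorem far_NS {G : SimpleGraph V} {X : Set V} {t : ℕ} {D : Fin t → Set V} (hPM : PM G X D)
    (S : Finset V) (i0 : Fin t) (h0 : Disjoint (D i0) X) (h0S : Disjoint (D i0) (S : Set V))
    (hsep : ∀ a ∈ X, a ∉ S → ∀ d ∈ D i0, ¬ RI G ((S : Set V)ᶜ) a d) (z : ℕ) (hns : NS G X D z) :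
    NS (resG G (farS G X S ∪ S)) (S : Set V) (fun i => D i ∩ (farS G X S ∪ S)) z := by
  intro S' hS' i hi hi'
  obtain ⟨h1, h2⟩ := FN_inner hPM S i0 h0 h0S hsep i hi
  have h3 : D i ∩ (farS G X S ∪ S) = D i :=
    Set.inter_eq_left.2 (h1.trans Set.subset_union_left)
  have hi'' : Disjoint (D i) (S' : Set V) := by
    have := hi'
    simp only [h3] at this
    exact this
  obtain ⟨a, ha, haS', d, hd, hr⟩ := hns S' hS' i h2 hi''
  obtain ⟨s, hs, hsS, hr'⟩ := FN_path hr.symm (h1 hd) (fun h => FN_X h ha)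
  refine ⟨s, hsS, by simpa using hs, d, ⟨hd, Or.inl (h1 hd)⟩, ?_⟩
  exact (hr'.monoS Set.inter_subset_left).symm

end Pool.Agent.Lib.MP_09e206_co
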