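import Pool.Agent.Lib.MP_09e206_co.L.Defs

namespace Pool.Agent.Lib.MP_09e206_co

open Pool.Agent.Lib.MP_4332cb_co

variable {V : Type*}

private lemma P4_sep {G : SimpleGraph V} {X : Set V} (S Y Y' : Finset V)
    (hY' : ∀ v, v ∈ Y → v ∉ farS G X S → v ∈ Y') {a v : V} (ha : a ∉ farS G X S)
    (h : RI G ((Y' : Set V)ᶜ) a v) :
    (v ∉ farS G X S ∧ RI (resG G (farS G X S)ᶜ) ((Y : Set V)ᶜ) a v) ∨
      ∃ s ∈ S, s ∉ Y ∧ RI (resG G (farS G X S)ᶜ) ((Y : Set V)ᶜ) a s := by
  induction h with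
  | refl => exact Or.inl ⟨ha, RI.refl _⟩
  | @tail b c h1 h2 ih =>
    rcases ih with ⟨hb, ihb⟩ | ih
    · have hbY : b ∉ Y := fun h => h2.2.1 (Finset.mem_coe.2 (hY' b h hb))
      by_cases hc : c ∈ farS G X S
      · right
        have hbS : b ∈ S := by
          by_contra hbS
          apply hb
          refine ⟨hbS, fun a' ha' ha'S hr => ?_⟩
          refine hc.2 a' ha' ha'S (hr.trans (RI.single h2.1 ?_ ?_))
          · simpa using hbS
          · simpa using hc.1
        exact ⟨b, hbS, hbY, ihb⟩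
      · left
        have hcY : c ∉ Y := fun h => h2.2.2 (Finset.mem_coe.2 (hY' c h hc))
        refine ⟨hc, ihb.trans (RI.single ⟨h2.1, hb, hc⟩ ?_ ?_)⟩
        · simpa using hbY
        · simpa using hcY
    · exact Or.inr ih

/-- [P4] Menger -/
theorem far_link [Fintype V] {G : SimpleGraph V} {X : Set V} {t : ℕ} {D : Fin t → Set V}
    (S : Finset V) (hns : NS G X D S.card) (i0 : Fin t) (h0 : Disjoint (D i0) X)
    (h0S : Disjoint (D i0) (S : Set V))
    (hsep : ∀ a ∈ X, a ∉ S → ∀ d ∈ D i0, ¬ RI G ((S : Set V)ᶜ) a d) :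
    ∃ C : V → Set V, (∀ s ∈ S, Cn G (C s) ∧ s ∈ C s ∧ (C s ∩ X).Nonempty ∧
        Disjoint (C s) (farS G X S) ∧ C s ∩ (S : Set V) = {s}) ∧
      ∀ s ∈ S, ∀ s' ∈ S, s ≠ s' → Disjoint (C s) (C s') := by
  classical
  have hXF : ∀ x ∈ X, x ∉ farS G X S := fun x hx hF => hF.2 x hx hF.1 (RI.refl _)
  have hSF : ∀ s ∈ S, s ∉ farS G X S := fun s hs hF => hF.1 hs
  have hDF : ∀ d ∈ D i0, d ∈ farS G X S := fun d hd =>
    ⟨fun h => Set.disjoint_left.1 h0S hd h, fun a ha haS => hsep a ha haS d hd⟩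
  have hm : Lk (resG G (farS G X S)ᶜ) X (S : Set V) S.card := by
    apply menger
    intro Y hY
    by_contra hcard
    push Not at hcard
    have hY'c : (Y.filter (fun v => v ∉ farS G X S)).card < S.card :=
      lt_of_le_of_lt (Finset.card_filter_le _ _) hcard
    have hdisj : Disjoint (D i0) ((Y.filter (fun v => v ∉ farS G X S) : Finset V) : Set V) := by
      rw [Set.disjoint_left]
      intro d hd hd'
      rw [Finset.mem_coe, Finset.mem_filter] at hd'
      exact hd'.2 (hDF d hd)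
    obtain ⟨a, haX, haY', d, hd, hr⟩ := hns _ hY'c i0 h0 hdisj
    have haF := hXF a haX
    have haY : a ∉ Y := fun h => haY' (by rw [Finset.mem_filter]; exact ⟨h, haF⟩)
    rcases P4_sep S Y _ (fun v hv hF => by rw [Finset.mem_filter]; exact ⟨hv, hF⟩) haF hr with
      ⟨h, _⟩ | ⟨s, hs, hsY, hrs⟩
    · exact h (hDF d hd)
    · exact hY a haX s hs (by simpa using haY) (by simpa using hsY) hrs
  obtain ⟨C, c1, c2, c3, c4⟩ := hm
  choose ξ hξ hξS using c4
  have hinj : Function.Injective ξ := by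
    intro i j hij
    by_contra hne
    exact Set.disjoint_left.1 (c2 i j hne) (hξ i) (by rw [hij]; exact hξ j)
  have himg : Finset.univ.image ξ = S := by
    apply Finset.eq_of_subset_of_card_le
    · intro w hw
      rw [Finset.mem_image] at hw
      obtain ⟨i, _, rfl⟩ := hw
      exact hξS i
    · rw [Finset.card_image_of_injective _ hinj]; simp
  have hex : ∀ s ∈ S, ∃ i, ξ i = s := by
    intro s hs
    rw [← himg, Finset.mem_image] at hs
    obtain ⟨i, _, hi⟩ := hs
    exact ⟨i, hi⟩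
  have huniq : ∀ i, ∀ z ∈ C i, z ∈ S → z = ξ i := by
    intro i z hz hzS
    obtain ⟨j, hj⟩ := hex z hzS
    by_cases hij : i = j
    · rw [hij, hj]
    · exfalso
      exact Set.disjoint_left.1 (c2 i j hij) hz (by rw [← hj]; exact hξ j)
  have hF : ∀ i, ∀ z ∈ C i, z ∉ farS G X S := by
    intro i z hz hzF
    have hiso : ∀ u, ¬ (resG G (farS G X S)ᶜ).Adj u z := fun u h => h.2.2 hzF
    have := RI_ne_of_isolated hiso ((c1 i).2 (ξ i) (hξ i) z hz)
    exact hSF _ (hξS i) (by rw [this]; exact hzF)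
  rcases S.eq_empty_or_nonempty with hS | hS
  · subst hS
    exact ⟨fun _ => ∅, fun s hs => absurd hs (Finset.notMem_empty s),
      fun s hs => absurd hs (Finset.notMem_empty s)⟩
  have : Nonempty (Fin S.card) := ⟨⟨0, Finset.card_pos.2 hS⟩⟩
  choose! idx hidx using hex
  refine ⟨fun s => C (idx s), fun s hs => ⟨?_, ?_, c3 _, ?_, ?_⟩, ?_⟩
  · exact (c1 (idx s)).mono_graph fun a _ b _ h => resG_le G _ h
  · have := hξ (idx s)
    rwa [hidx s hs] at this
  · rw [Set.disjoint_left]
    exact hF _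
  · ext z
    constructor
    · rintro ⟨h1, h2⟩
      have := huniq _ z h1 h2
      rw [hidx s hs] at this
      exact this
    · intro h
      have hz : z = s := h
      rw [hz]
      refine ⟨?_, hs⟩
      have := hξ (idx s)
      rwa [hidx s hs] at this
  · intro s hs s' hs' hne
    apply c2
    intro h
    apply hne
    rw [← hidx s hs, ← hidx s' hs', h]

end Pool.Agent.Lib.MP_09e206_co
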