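import Pool.Agent.Lib.MP_09e206_co.L.Defs
import Pool.Agent.Lib.MP_09e206_co.L.P1

namespace Pool.Agent.Lib.MP_09e206_co

open Pool.Agent.Lib.MP_4332cb_co

variable {V : Type*}

lemma resG_subset5 {G : SimpleGraph V} {B T : Set V} {s : V} (hT : Cn (resG G B) T) (hs : s ∈ T)
    (hB : s ∈ B) : T ⊆ B := by
  intro x hx
  have h := hT.2 s hs x hx
  induction h with
  | refl => exact hB
  | tail h1 h2 _ => exact h2.1.2.2

/-- [P5] -/
theorem far_combine {G : SimpleGraph V} {X : Set V} {S : Finset V} {C : V → Set V}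
    (hC : ∀ s ∈ S, Cn G (C s) ∧ s ∈ C s ∧ (C s ∩ X).Nonempty ∧
        Disjoint (C s) (farS G X S) ∧ C s ∩ (S : Set V) = {s})
    (hCd : ∀ s ∈ S, ∀ s' ∈ S, s ≠ s' → Disjoint (C s) (C s'))
    (h : RK (resG G (farS G X S ∪ S)) (S : Set V) S.card) : RK G X S.card := by
  classical
  obtain ⟨f, hf1, hf2⟩ := RK_rooted h
  have hfsub : ∀ s ∈ S, f s ⊆ farS G X S ∪ S := fun s hs =>
    resG_subset5 (hf1 s hs).1 (hf1 s hs).2.1 (Or.inr hs)
  have hfG : ∀ s ∈ S, Cn G (f s) := fun s hs =>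
    (hf1 s hs).1.mono_graph (fun _ _ _ _ h => resG_le _ _ h)
  let e := S.equivFin
  have hcross : ∀ s ∈ S, ∀ s' ∈ S, s ≠ s' → Disjoint (C s) (f s') := by
    intro s hs s' hs' hne
    rw [Set.disjoint_left]
    intro x hx hx'
    rcases hfsub s' hs' hx' with h1 | h1
    · exact Set.disjoint_left.1 (hC s hs).2.2.2.1 hx h1
    · have h2 : x ∈ C s ∩ (S : Set V) := ⟨hx, h1⟩
      have h3 : x ∈ f s' ∩ (S : Set V) := ⟨hx', h1⟩
      rw [(hC s hs).2.2.2.2] at h2
      rw [(hf1 s' hs').2.2] at h3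
      have h4 : x = s := h2
      have h5 : x = s' := h3
      exact hne (h4.symm.trans h5)
  refine ⟨fun i => C (e.symm i).1 ∪ f (e.symm i).1, ?_, ?_, ?_, ?_⟩
  · intro i
    have hs := (e.symm i).2
    exact (hC _ hs).1.union_of_mem (hfG _ hs) (hC _ hs).2.1 (hf1 _ hs).2.1
  · intro i j hij
    have hs := (e.symm i).2
    have hs' := (e.symm j).2
    have hne : (e.symm i).1 ≠ (e.symm j).1 := fun h => hij (e.symm.injective (Subtype.ext h))
    rw [Set.disjoint_union_left, Set.disjoint_union_right, Set.disjoint_union_right]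
    exact ⟨⟨hCd _ hs _ hs' hne, hcross _ hs _ hs' hne⟩,
      ⟨(hcross _ hs' _ hs hne.symm).symm, (hf2 _ hs _ hs' hne).1⟩⟩
  · intro i j hij
    have hs := (e.symm i).2
    have hs' := (e.symm j).2
    have hne : (e.symm i).1 ≠ (e.symm j).1 := fun h => hij (e.symm.injective (Subtype.ext h))
    obtain ⟨_, x, hx, y, hy, hxy⟩ := hf2 _ hs _ hs' hne
    exact ⟨x, Or.inr hx, y, Or.inr hy, hxy.1⟩
  · intro i
    obtain ⟨x, hx, hxX⟩ := (hC _ (e.symm i).2).2.2.1
    exact ⟨x, Or.inl hx, hxX⟩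

end Pool.Agent.Lib.MP_09e206_co
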