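import Pool.Agent.Lib.MP_09e206_co.L.Defs

namespace Pool.Agent.Lib.MP_09e206_co

open Pool.Agent.Lib.MP_4332cb_co

variable {V : Type*}

open Classical in
/-- the contraction map -/
private noncomputable def p6f (x y v : V) : V := if v = y then x else v

private lemma p6f_y (x y : V) : p6f x y y = x := by simp [p6f]

private lemma p6f_ne {x y v : V} (h : v ≠ y) : p6f x y v = v := by simp [p6f, h]

private lemma p6_adj {G : SimpleGraph V} {x y a b : V} (hxy : G.Adj x y) (hab : G.Adj a b) :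
    p6f x y a = p6f x y b ∨ (ctr G x y).Adj (p6f x y a) (p6f x y b) := by
  by_cases ha : a = y
  · by_cases hb : b = y
    · exact absurd (ha.trans hb.symm) hab.ne
    · rw [ha, p6f_y, p6f_ne hb]
      by_cases h : x = b
      · exact Or.inl h
      · exact Or.inr ⟨h, hxy.ne, hb, Or.inr (Or.inl ⟨rfl, ha ▸ hab⟩)⟩
  · by_cases hb : b = y
    · rw [hb, p6f_y, p6f_ne ha]
      by_cases h : a = x
      · exact Or.inl h
      · exact Or.inr ⟨h, ha, hxy.ne, Or.inr (Or.inr ⟨rfl, hb ▸ hab.symm⟩)⟩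
    · rw [p6f_ne ha, p6f_ne hb]
      exact Or.inr ⟨hab.ne, ha, hb, Or.inl hab⟩

private lemma p6_mem {S : Set V} {x y v : V} (hne : x ≠ y) (hS : y ∈ S → x ∈ S) (hv : v ∈ S) :
    p6f x y v ∈ S \ {y} := by
  by_cases h : v = y
  · rw [h, p6f_y]
    exact ⟨hS (h ▸ hv), hne⟩
  · rw [p6f_ne h]
    exact ⟨hv, h⟩

private lemma p6_RI {G : SimpleGraph V} {x y : V} (hxy : G.Adj x y) {S : Set V}
    (hS : y ∈ S → x ∈ S) {u v : V} (h : RI G S u v) :
    RI (ctr G x y) (S \ {y}) (p6f x y u) (p6f x y v) := by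
  induction h with
  | refl => exact RI.refl _
  | tail _ h2 ih =>
    rcases p6_adj hxy h2.1 with h3 | h3
    · rw [← h3]; exact ih
    · exact ih.trans (RI.single h3 (p6_mem hxy.ne hS h2.2.1) (p6_mem hxy.ne hS h2.2.2))

/-- [P6a] -/
theorem ctr_PM {G : SimpleGraph V} {Z : Set V} {t : ℕ} {D : Fin t → Set V} (hPM : PM G Z D)
    {x y : V} (hxy : G.Adj x y) (i0 : Fin t) (h0 : Disjoint (D i0) Z) (hx : x ∈ D i0)
    (hy : y ∈ D i0) : PM (ctr G x y) Z (fun i => D i \ {y}) := by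
  have hyZ : y ∉ Z := Set.disjoint_left.1 h0 hy
  have hyi : ∀ i, y ∈ D i → i = i0 := by
    intro i hi
    by_contra hne
    exact Set.disjoint_left.1 (hPM.disj i i0 hne) hi hy
  have hS : ∀ i, y ∈ D i → x ∈ D i := by
    intro i hi
    rw [hyi i hi]
    exact hx
  have hdj : ∀ i, Disjoint (D i \ {y}) Z → Disjoint (D i) Z := by
    intro i hi
    rw [Set.disjoint_left] at hi ⊢
    intro v hv hvZ
    exact hi ⟨hv, fun h => hyZ (h ▸ hvZ)⟩ hvZ
  have hdisj : ∀ i j, i ≠ j → Disjoint (D i \ {y}) (D j \ {y}) := fun i j hij =>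
    (hPM.disj i j hij).mono Set.diff_subset Set.diff_subset
  refine ⟨?_, hdisj, ?_, ?_, ?_⟩
  · intro i
    obtain ⟨v, hv⟩ := hPM.ne i
    exact ⟨_, p6_mem hxy.ne (hS i) hv⟩
  · intro i hi
    have h1 := hPM.conn i (hdj i hi)
    obtain ⟨v, hv⟩ := h1.1
    refine ⟨⟨_, p6_mem hxy.ne (hS i) hv⟩, ?_⟩
    intro a ha b hb
    have h2 := p6_RI hxy (hS i) (h1.2 a ha.1 b hb.1)
    rwa [p6f_ne ha.2, p6f_ne hb.2] at h2
  · intro i hi v hv
    have hi' : ¬ Disjoint (D i) Z := fun h => hi (h.mono_left Set.diff_subset)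
    obtain ⟨z, ⟨hz, hzZ⟩, hR⟩ := hPM.out i hi' v hv.1
    have hzy : z ≠ y := fun h => hyZ (h ▸ hzZ)
    refine ⟨z, ⟨⟨hz, hzy⟩, hzZ⟩, ?_⟩
    have h2 := p6_RI hxy (hS i) hR
    rwa [p6f_ne hv.2, p6f_ne hzy] at h2
  · intro i j hij hi
    obtain ⟨u, hu, v, hv, huv⟩ := hPM.adj i j hij (hdj i hi)
    have hu' := p6_mem hxy.ne (hS i) hu
    have hv' := p6_mem hxy.ne (hS j) hv
    refine ⟨_, hu', _, hv', ?_⟩
    rcases p6_adj hxy huv with h3 | h3
    · exfalso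
      rw [h3] at hu'
      exact Set.disjoint_left.1 (hdisj i j hij) hu' hv'
    · exact h3

end Pool.Agent.Lib.MP_09e206_co
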