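import Pool.Agent.Lib.MP_09e206_co.L.Defs

namespace Pool.Agent.Lib.MP_09e206_co

open Pool.Agent.Lib.MP_4332cb_co

variable {V : Type*}

/-- a path of `G` outside `S1` becomes a path of the contraction -/
private lemma P6b_map {G : SimpleGraph V} {x y : V} (hxy : x ≠ y) {T T' : Set V} (hx : x ∈ T')
    (hT : ∀ v ∈ T, v ≠ y → v ∈ T') {a d : V} (h : RI G T a d) (ha : a ≠ y) :
    (d = y → RI (ctr G x y) T' a x) ∧ (d ≠ y → RI (ctr G x y) T' a d) := by
  induction h with
  | refl => exact ⟨fun h => absurd h ha, fun _ => RI.refl _⟩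
  | @tail b c _ h2 ih =>
    obtain ⟨h3, h4, h5⟩ := h2
    refine ⟨fun hc => ?_, fun hc => ?_⟩
    · subst hc
      have hb : b ≠ c := h3.ne
      have h6 := ih.2 hb
      by_cases hbx : b = x
      · rw [hbx] at h6; exact h6
      · have e : (ctr G x c).Adj b x := ⟨hbx, hb, hxy, Or.inr (Or.inr ⟨rfl, h3.symm⟩)⟩
        exact h6.trans (RI.single e (hT b h4 hb) hx)
    · by_cases hb : b = y
      · have h6 := ih.1 hb
        subst hb
        by_cases hcx : c = x
        · rw [hcx]; exact h6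
        · have e : (ctr G x b).Adj x c := ⟨fun h => hcx h.symm, hxy, hc, Or.inr (Or.inl ⟨rfl, h3⟩)⟩
          exact h6.trans (RI.single e hx (hT c h5 hc))
      · have h6 := ih.2 hb
        have e : (ctr G x y).Adj b c := ⟨h3.ne, hb, hc, Or.inl h3⟩
        exact h6.trans (RI.single e (hT b h4 hb) (hT c h5 hc))

/-- [P6b] -/
theorem ctr_NS {G : SimpleGraph V} {Z : Finset V} {t : ℕ} {D : Fin t → Set V}
    (hPM : PM G (Z : Set V) D) (hns : NS G (Z : Set V) D Z.card)
    (hno : ∀ S : Finset V, S.card = Z.card → S ≠ Z → ∀ i, Disjoint (D i) (Z : Set V) →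
      Disjoint (D i) (S : Set V) → ∃ a ∈ Z, a ∉ S ∧ ∃ d ∈ D i, RI G ((S : Set V)ᶜ) a d)
    {x y : V} (hxy : G.Adj x y) (i0 : Fin t) (h0 : Disjoint (D i0) (Z : Set V)) (hx : x ∈ D i0)
    (hy : y ∈ D i0) : NS (ctr G x y) (Z : Set V) (fun i => D i \ {y}) Z.card := by
  classical
  intro S' hS' i hi hi'
  have hyZ : y ∉ Z := fun h => Set.disjoint_left.1 h0 hy h
  have hxne : x ≠ y := hxy.ne
  have hDZ : Disjoint (D i) (Z : Set V) := by
    rw [Set.disjoint_left]
    intro w hw hwZ
    refine Set.disjoint_left.1 hi ⟨hw, fun h => hyZ ?_⟩ hwZ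
    have : w = y := h
    exact this ▸ hwZ
  have hS'D : ∀ w ∈ D i, w ≠ y → w ∉ S' := fun w hw hwy hwS =>
    Set.disjoint_left.1 hi' ⟨hw, hwy⟩ hwS
  have hc1 : (S'.erase y).card ≤ S'.card := Finset.card_erase_le
  by_cases hxS : x ∈ S'
  · have hyD : y ∉ D i := by
      intro hyD
      have : i = i0 := by
        by_contra hne
        exact Set.disjoint_left.1 (hPM.disj i i0 hne) hyD hy
      subst this
      exact hS'D x hx hxne hxS
    have hdis : Disjoint (D i) ((insert y (S'.erase y) : Finset V) : Set V) := by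
      rw [Set.disjoint_left]
      intro w hw hwS
      have h1 : w ∈ insert y (S'.erase y) := hwS
      rw [Finset.mem_insert, Finset.mem_erase] at h1
      rcases h1 with h1 | h1
      · exact hyD (h1 ▸ hw)
      · exact hS'D w hw h1.1 h1.2
    have hcard : (insert y (S'.erase y)).card ≤ Z.card :=
      (Finset.card_insert_le _ _).trans (by omega)
    have hkey : ∃ a ∈ Z, a ∉ insert y (S'.erase y) ∧ ∃ d ∈ D i,
        RI G ((insert y (S'.erase y) : Finset V) : Set V)ᶜ a d := by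
      rcases hcard.lt_or_eq with h1 | h1
      · obtain ⟨a, ha, h2, d, hd, h3⟩ := hns _ h1 i hDZ hdis
        exact ⟨a, ha, h2, d, hd, h3⟩
      · exact hno _ h1 (fun h => hyZ (h ▸ Finset.mem_insert_self _ _)) i hDZ hdis
    obtain ⟨a, ha, haS, d, hd, hr⟩ := hkey
    have hmem : ∀ v, v ∉ insert y (S'.erase y) → v ≠ y ∧ v ∉ S' := by
      intro v hv
      rw [Finset.mem_insert, Finset.mem_erase, not_or] at hv
      exact ⟨hv.1, fun h => hv.2 ⟨hv.1, h⟩⟩
    refine ⟨a, ha, (hmem a haS).2, d, ⟨hd, fun h => hyD (by have : d = y := h; exact this ▸ hd)⟩, ?_⟩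
    refine RI.mono ?_ ?_ hr
    · intro v hv w hw hvw
      have h1 := hmem v (fun h => hv (Finset.mem_coe.2 h))
      have h2 := hmem w (fun h => hw (Finset.mem_coe.2 h))
      exact ⟨hvw.ne, h1.1, h2.1, Or.inl hvw⟩
    · intro v hv
      have h1 := hmem v (fun h => hv (Finset.mem_coe.2 h))
      simpa using h1.2
  · have hdis : Disjoint (D i) ((S'.erase y : Finset V) : Set V) := by
      rw [Set.disjoint_left]
      intro w hw hwS
      have h1 : w ∈ S'.erase y := hwS
      rw [Finset.mem_erase] at h1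
      exact hS'D w hw h1.1 h1.2
    obtain ⟨a, ha, haS, d, hd, hr⟩ := hns (S'.erase y) (lt_of_le_of_lt hc1 hS') i hDZ hdis
    have hay : a ≠ y := fun h => hyZ (h ▸ ha)
    have hmap := P6b_map (T' := ((S' : Set V)ᶜ)) hxne (by simpa using hxS) (fun v hv hvy => by
      have h1 : v ∉ S'.erase y := fun h => hv (Finset.mem_coe.2 h)
      rw [Finset.mem_erase, not_and] at h1
      simpa using h1 hvy) hr hay
    refine ⟨a, ha, fun h => haS (Finset.mem_erase.2 ⟨hay, h⟩), ?_⟩
    by_cases hdy : d = y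
    · have : i = i0 := by
        by_contra hne
        exact Set.disjoint_left.1 (hPM.disj i i0 hne) (hdy ▸ hd) hy
      subst this
      exact ⟨x, ⟨hx, hxne⟩, hmap.1 hdy⟩
    · exact ⟨d, ⟨hd, hdy⟩, hmap.2 hdy⟩

end Pool.Agent.Lib.MP_09e206_co
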