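import Pool.Agent.Lib.MP_09e206_co.L.Defs

namespace Pool.Agent.Lib.MP_09e206_co

open Pool.Agent.Lib.MP_4332cb_co

variable {V : Type*}

private lemma P6c_lift {G : SimpleGraph V} {x y : V} (hxy : G.Adj x y) {T : Set V} {a b : V}
    (h : RI (ctr G x y) T a b) : RI G (T ∪ {v | v = y ∧ x ∈ T}) a b := by
  induction h with
  | refl => exact RI.refl _
  | @tail b c _ h2 ih =>
    obtain ⟨⟨h3, h4, h5, h6⟩, h7, h8⟩ := h2
    refine ih.trans ?_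
    rcases h6 with h6 | ⟨h6, h9⟩ | ⟨h6, h9⟩
    · exact RI.single h6 (Or.inl h7) (Or.inl h8)
    · subst h6
      exact (RI.single (S := T ∪ {v | v = y ∧ b ∈ T}) hxy (Or.inl h7) (Or.inr ⟨rfl, h7⟩)).trans
        (RI.single h9 (Or.inr ⟨rfl, h7⟩) (Or.inl h8))
    · subst h6
      exact (RI.single (S := T ∪ {v | v = y ∧ c ∈ T}) h9.symm (Or.inl h7) (Or.inr ⟨rfl, h8⟩)).trans
        (RI.single hxy.symm (Or.inr ⟨rfl, h8⟩) (Or.inl h8))

private lemma P6c_iso {G : SimpleGraph V} {x y : V} {T : Set V} {b : V}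
    (h : RI (ctr G x y) T y b) : b = y := by
  induction h with
  | refl => rfl
  | tail _ h2 ih => exact absurd ih h2.1.2.1

/-- [P6c] -/
theorem ctr_RK {G : SimpleGraph V} {X : Set V} {m : ℕ} {x y : V} (hxy : G.Adj x y) (hy : y ∉ X)
    (h : RK (ctr G x y) X m) : RK G X m := by
  obtain ⟨f, h1, h2, h3, h4⟩ := h
  have hyf : ∀ i, y ∉ f i := by
    intro i hyi
    obtain ⟨z, hz, hzX⟩ := h4 i
    have := P6c_iso ((h1 i).2 y hyi z hz)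
    exact hy (this ▸ hzX)
  refine ⟨fun i => f i ∪ {v | v = y ∧ x ∈ f i}, ?_, ?_, ?_, ?_⟩
  · intro i
    obtain ⟨⟨z, hz⟩, hc⟩ := h1 i
    refine Cn_of_center (x := z) (Or.inl hz) ?_
    rintro w (hw | ⟨rfl, hxi⟩)
    · exact P6c_lift hxy (hc z hz w hw)
    · exact (P6c_lift hxy (hc z hz x hxi)).trans (RI.single hxy (Or.inl hxi) (Or.inr ⟨rfl, hxi⟩))
  · intro i j hij
    rw [Set.disjoint_left]
    rintro w (hw | ⟨hw, hxi⟩) (hw' | ⟨hw', hxj⟩)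
    · exact Set.disjoint_left.1 (h2 i j hij) hw hw'
    · exact hyf i (hw' ▸ hw)
    · exact hyf j (hw ▸ hw')
    · exact Set.disjoint_left.1 (h2 i j hij) hxi hxj
  · intro i j hij
    obtain ⟨u, hu, v, hv, -, -, -, h6⟩ := h3 i j hij
    rcases h6 with h6 | ⟨h6, h9⟩ | ⟨h6, h9⟩
    · exact ⟨u, Or.inl hu, v, Or.inl hv, h6⟩
    · exact ⟨y, Or.inr ⟨rfl, h6 ▸ hu⟩, v, Or.inl hv, h9⟩
    · exact ⟨u, Or.inl hu, y, Or.inr ⟨rfl, h6 ▸ hv⟩, h9.symm⟩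
  · intro i
    obtain ⟨z, hz, hzX⟩ := h4 i
    exact ⟨z, Or.inl hz, hzX⟩

end Pool.Agent.Lib.MP_09e206_co
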