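import Pool.Agent.Lib.MP_09e206_co.L.Defs

namespace Pool.Agent.Lib.MP_09e206_co

open Pool.Agent.Lib.MP_4332cb_co

variable {V : Type*}

/-- pairwise disjoint sets which all meet a finite set -/
private lemma P7_card_le {t : ℕ} {D : Fin t → Set V}
    (hd : ∀ i j, i ≠ j → Disjoint (D i) (D j)) (S : Finset (Fin t)) (X : Finset V)
    (h : ∀ i ∈ S, ¬ Disjoint (D i) (X : Set V)) : S.card ≤ X.card := by
  classical
  have h' : ∀ i : S, ∃ x : V, x ∈ D i.1 ∧ x ∈ X := by
    intro i
    obtain ⟨x, hx1, hx2⟩ := Set.not_disjoint_iff.1 (h i.1 i.2)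
    exact ⟨x, hx1, hx2⟩
  choose f hf1 hf2 using h'
  have hinj : Function.Injective (fun i : S => (⟨f i, hf2 i⟩ : X)) := by
    intro i j hij
    by_contra hne
    have hne' : i.1 ≠ j.1 := fun e => hne (Subtype.ext e)
    have e : f i = f j := congrArg Subtype.val hij
    exact Set.disjoint_left.1 (hd i.1 j.1 hne') (hf1 i) (e ▸ hf1 j)
  have := Fintype.card_le_of_injective _ hinj
  simpa using this

/-- [P7] the case of singleton inner branch sets -/
theorem LL_base [Fintype V] {G : SimpleGraph V} {Z : Finset V} {t : ℕ} {D : Fin t → Set V}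
    (hPM : PM G (Z : Set V) D) (ht : 2 * Z.card ≤ t) (hns : NS G (Z : Set V) D Z.card)
    (hs : ∀ i, Disjoint (D i) (Z : Set V) → (D i).Subsingleton) : RK G (Z : Set V) Z.card := by
  classical
  set I : Finset (Fin t) := Finset.univ.filter (fun i => Disjoint (D i) (Z : Set V)) with hI
  have hIc : Z.card ≤ I.card := by
    have h1 : (Finset.univ.filter (fun i => ¬ Disjoint (D i) (Z : Set V))).card ≤ Z.card :=
      P7_card_le hPM.disj _ Z (fun i hi => (Finset.mem_filter.1 hi).2)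
    have h2 := Finset.card_filter_add_card_filter_not (s := (Finset.univ : Finset (Fin t)))
      (fun i => Disjoint (D i) (Z : Set V))
    rw [Finset.card_univ, Fintype.card_fin, ← hI] at h2
    omega
  obtain ⟨C, hC1, hC2, hC3, hC4⟩ := menger G (Z : Set V) {x | ∃ i ∈ I, x ∈ D i} Z.card (by
    intro X hX
    by_contra hlt
    push Not at hlt
    have h3 : ∃ i ∈ I, Disjoint (D i) (X : Set V) := by
      by_contra hcon
      push Not at hcon
      have := P7_card_le hPM.disj I X hcon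
      omega
    obtain ⟨i, hi, hiX⟩ := h3
    obtain ⟨a, haZ, haX, d, hd, hR⟩ := hns X hlt i (Finset.mem_filter.1 hi).2 hiX
    exact hX a haZ d ⟨i, hi, hd⟩ haX (fun h => Set.disjoint_left.1 hiX hd h) hR)
  choose k hk using hC4
  have hk2 : ∀ i, ∃ j ∈ I, k i ∈ D j := fun i => (hk i).2
  choose σ hσI hσ using hk2
  have hin : ∀ i, Disjoint (D (σ i)) (Z : Set V) := fun i => (Finset.mem_filter.1 (hσI i)).2
  refine ⟨C, hC1, hC2, ?_, hC3⟩
  intro i j hij
  have hne : σ i ≠ σ j := by
    intro e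
    have h1 : k j ∈ D (σ i) := e ▸ hσ j
    have h2 : k i = k j := hs _ (hin i) (hσ i) h1
    exact Set.disjoint_left.1 (hC2 i j hij) (hk i).1 (h2 ▸ (hk j).1)
  obtain ⟨u, hu, v, hv, huv⟩ := hPM.adj _ _ hne (hin i)
  have h1 : u = k i := hs _ (hin i) hu (hσ i)
  have h2 : v = k j := hs _ (hin j) hv (hσ j)
  exact ⟨k i, (hk i).1, k j, (hk j).1, h1 ▸ h2 ▸ huv⟩

end Pool.Agent.Lib.MP_09e206_co
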