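import Pool.Agent.Lib.MP_09e206_co.L.Defs
import Pool.Agent.Lib.MP_09e206_co.L.P2
import Pool.Agent.Lib.MP_09e206_co.L.P3
import Pool.Agent.Lib.MP_09e206_co.L.P4
import Pool.Agent.Lib.MP_09e206_co.L.P5
import Pool.Agent.Lib.MP_09e206_co.L.P6a
import Pool.Agent.Lib.MP_09e206_co.L.P6b
import Pool.Agent.Lib.MP_09e206_co.L.P6c
import Pool.Agent.Lib.MP_09e206_co.L.P7

namespace Pool.Agent.Lib.MP_09e206_co

open Pool.Agent.Lib.MP_4332cb_co

variable {V : Type*}

/-- the first edge of a path between different vertices -/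
private theorem P8_first {G : SimpleGraph V} {S : Set V} {x y : V} (h : RI G S x y)
    (hne : x ≠ y) : ∃ w, G.Adj x w ∧ x ∈ S ∧ w ∈ S := by
  rcases Relation.ReflTransGen.cases_head h with h1 | ⟨w, h1, -⟩
  · exact absurd h1 hne
  · exact ⟨w, h1.1, h1.2.1, h1.2.2⟩

private theorem P8_aux [Fintype V] (n : ℕ) : ∀ (G : SimpleGraph V) (Z : Finset V) (t : ℕ)
    (D : Fin t → Set V), (niso G).card ≤ n → PM G (Z : Set V) D → 2 * Z.card ≤ t →
    NS G (Z : Set V) D Z.card → RK G (Z : Set V) Z.card := by
  classical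
  induction n with
  | zero =>
    intro G Z t D hn hPM ht hns
    refine LL_base hPM ht hns fun i hi x hx y hy => ?_
    by_contra hne
    obtain ⟨w, hw, -⟩ := P8_first ((hPM.conn i hi).2 x hx y hy) hne
    have h1 : x ∈ niso G := mem_niso.2 ⟨w, hw⟩
    rw [Finset.card_eq_zero.1 (Nat.le_zero.1 hn)] at h1
    exact absurd h1 (Finset.notMem_empty x)
  | succ n ih =>
    intro G Z t D hn hPM ht hns
    by_cases hA : ∃ (S : Finset V) (i : Fin t), S.card = Z.card ∧ S ≠ Z ∧
        Disjoint (D i) (Z : Set V) ∧ Disjoint (D i) (S : Set V) ∧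
        ∀ a ∈ (Z : Set V), a ∉ S → ∀ d ∈ D i, ¬ RI G ((S : Set V)ᶜ) a d
    · obtain ⟨S, i0, hSc, hSZ, h0, h0S, hsep⟩ := hA
      -- a vertex of `Z` outside `S`
      have hex : ∃ a ∈ Z, a ∉ S := by
        by_contra hcon
        push Not at hcon
        exact hSZ (Finset.eq_of_subset_of_card_le hcon hSc.le).symm
      obtain ⟨a, haZ, haS⟩ := hex
      have haG : a ∈ niso G := by
        obtain ⟨a', ha'Z, ha'e, d, hd, hr⟩ := hns (Z.erase a)
          (Finset.card_erase_lt_of_mem haZ) i0 h0
          (h0.mono_right (by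
            intro z hz
            exact Finset.mem_of_mem_erase hz))
        have ha' : a' = a := by
          by_contra hne
          exact ha'e (Finset.mem_erase.2 ⟨hne, ha'Z⟩)
        subst ha'
        have hne : a' ≠ d := by
          rintro rfl
          exact Set.disjoint_left.1 h0 hd haZ
        obtain ⟨w, hw, -⟩ := P8_first hr hne
        exact mem_niso.2 ⟨w, hw⟩
      have hcard : (niso (resG G (farS G (Z : Set V) S ∪ S))).card ≤ n := by
        have hsub : niso (resG G (farS G (Z : Set V) S ∪ S)) ⊆ (niso G).erase a := by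
          intro v hv
          obtain ⟨w, hw⟩ := mem_niso.1 hv
          rw [Finset.mem_erase]
          refine ⟨?_, mem_niso.2 ⟨w, hw.1⟩⟩
          rintro rfl
          rcases hw.2.1 with h1 | h1
          · exact h1.2 v haZ haS (RI.refl _)
          · exact haS h1
        have h1 := Finset.card_le_card hsub
        rw [Finset.card_erase_of_mem haG] at h1
        omega
      obtain ⟨-, hPM'⟩ := far_PM hPM S i0 h0 h0S hsep
      have hns' := far_NS hPM S i0 h0 h0S hsep Z.card hns
      rw [← hSc] at hns'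
      have hrec := ih _ S t _ hcard hPM' (by omega) hns'
      have hns2 := hns
      rw [← hSc] at hns2
      obtain ⟨C, hC, hCd⟩ := far_link S hns2 i0 h0 h0S hsep
      have hfin := far_combine hC hCd hrec
      rwa [hSc] at hfin
    · by_cases hB : ∀ i, Disjoint (D i) (Z : Set V) → (D i).Subsingleton
      · exact LL_base hPM ht hns hB
      · push Not at hB
        obtain ⟨i0, h0, hns0⟩ := hB
        obtain ⟨x, hx, y, hy, hxy⟩ := hns0
        obtain ⟨w, hw, -, hwD⟩ := P8_first ((hPM.conn i0 h0).2 x hx y hy) hxy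
        have hwZ : w ∉ (Z : Set V) := fun h => Set.disjoint_left.1 h0 hwD h
        have hno : ∀ S : Finset V, S.card = Z.card → S ≠ Z → ∀ i, Disjoint (D i) (Z : Set V) →
            Disjoint (D i) (S : Set V) →
            ∃ a ∈ Z, a ∉ S ∧ ∃ d ∈ D i, RI G ((S : Set V)ᶜ) a d := by
          intro S h1 h2 i h3 h4
          by_contra hcon
          push Not at hcon
          exact hA ⟨S, i, h1, h2, h3, h4, fun a ha haS d hd => hcon a ha haS d hd⟩
        have hcard : (niso (ctr G x w)).card ≤ n := by
          have hwG : w ∈ niso G := mem_niso.2 ⟨x, hw.symm⟩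
          have hsub : niso (ctr G x w) ⊆ (niso G).erase w := by
            intro v hv
            obtain ⟨u, h1, h2, h3, h4⟩ := mem_niso.1 hv
            rw [Finset.mem_erase]
            refine ⟨h2, ?_⟩
            rcases h4 with h4 | ⟨h4, -⟩ | ⟨-, h4⟩
            · exact mem_niso.2 ⟨u, h4⟩
            · rw [h4]
              exact mem_niso.2 ⟨w, hw⟩
            · exact mem_niso.2 ⟨w, h4.symm⟩
          have h1 := Finset.card_le_card hsub
          rw [Finset.card_erase_of_mem hwG] at h1
          omega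
        have hrec := ih _ Z t _ hcard (ctr_PM hPM hw i0 h0 hx hwD) ht
          (ctr_NS hPM hns hno hw i0 h0 hx hwD)
        exact ctr_RK hw hwZ hrec

/-- [P8] **Linking lemma** -/
theorem LL [Fintype V] {G : SimpleGraph V} {Z : Finset V} {t : ℕ} {D : Fin t → Set V}
    (hPM : PM G (Z : Set V) D) (ht : 2 * Z.card ≤ t) (hns : NS G (Z : Set V) D Z.card) :
    RK G (Z : Set V) Z.card :=
  P8_aux _ G Z t D le_rfl hPM ht hns

end Pool.Agent.Lib.MP_09e206_co
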