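import Pool.Agent.Lib.MP_09e206_co.L.Defs
import Pool.Agent.Lib.MP_09e206_co.L.P2
import Pool.Agent.Lib.MP_09e206_co.L.P3
import Pool.Agent.Lib.MP_09e206_co.L.P4
import Pool.Agent.Lib.MP_09e206_co.L.P5
import Pool.Agent.Lib.MP_09e206_co.L.P8

namespace Pool.Agent.Lib.MP_09e206_co

open Pool.Agent.Lib.MP_4332cb_co

variable {V : Type*}

/-- one of `t` disjoint sets avoids a set with fewer than `t` elements -/
lemma exists_disj9 {t : ℕ} {D : Fin t → Set V} (h2 : ∀ i j, i ≠ j → Disjoint (D i) (D j))
    (S : Finset V) (h : S.card < t) : ∃ i, Disjoint (D i) (S : Set V) := by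
  classical
  by_contra hcon
  push Not at hcon
  have h3 : ∀ i, ∃ a, a ∈ D i ∧ a ∈ S := by
    intro i
    obtain ⟨a, ha, haS⟩ := Set.not_disjoint_iff.1 (hcon i)
    exact ⟨a, ha, haS⟩
  choose a ha using h3
  have hinj : Function.Injective a := by
    intro i j hij
    by_contra hne
    have h1 := (ha i).1
    rw [hij] at h1
    exact Set.disjoint_left.1 (h2 i j hne) h1 (ha j).1
  have h4 : (Finset.univ.image a).card ≤ S.card := by
    apply Finset.card_le_card
    intro x hx
    rw [Finset.mem_image] at hx
    obtain ⟨i, _, rfl⟩ := hx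
    exact (ha i).2
  rw [Finset.card_image_of_injective _ hinj] at h4
  simp at h4
  omega

lemma RK_mono9 {G : SimpleGraph V} {X Y : Set V} {m : ℕ} (h : RK G X m) (hXY : X ⊆ Y) : RK G Y m := by
  obtain ⟨f, f1, f2, f3, f4⟩ := h
  exact ⟨f, f1, f2, f3, fun i => (f4 i).mono (Set.inter_subset_inter_right _ hXY)⟩

/-- [P9] -/
theorem LL_set [Fintype V] {G : SimpleGraph V} {X : Set V} {t m : ℕ} {D : Fin t → Set V}
    (h1 : ∀ i, Cn G (D i)) (h2 : ∀ i j, i ≠ j → Disjoint (D i) (D j))
    (h3 : ∀ i j, i ≠ j → ∃ u ∈ D i, ∃ v ∈ D j, G.Adj u v) (ht : 2 * m ≤ t) (hm : 1 ≤ m)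
    (hns : NS G X D m) : RK G X m := by
  classical
  -- the strong form of the hypothesis
  have hstrong : ∀ X' : Set V, NS G X' D m → ∀ S : Finset V, S.card < m → ∀ i,
      Disjoint (D i) (S : Set V) → ∃ a ∈ X', a ∉ S ∧ ∃ d ∈ D i, RI G ((S : Set V)ᶜ) a d := by
    intro X' hn S hS i hi
    by_cases hd : Disjoint (D i) X'
    · exact hn S hS i hd hi
    · obtain ⟨a, ha, haX⟩ := Set.not_disjoint_iff.1 hd
      exact ⟨a, haX, fun h => Set.disjoint_left.1 hi ha h, a, ha, RI.refl _⟩
  have main : ∀ (n : ℕ) (X' : Set V), X'.ncard = n → NS G X' D m → RK G X' m := by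
    intro n
    induction n using Nat.strong_induction_on with
    | _ n ih =>
    intro X' hX' hn
    by_cases hex : ∃ x0 ∈ X', NS G (X' \ {x0}) D m
    · obtain ⟨x0, hx0, hx0n⟩ := hex
      have hlt : (X' \ {x0}).ncard < n := by
        rw [← hX']
        exact Set.ncard_sdiff_singleton_lt_of_mem hx0
      exact RK_mono9 (ih _ hlt _ rfl hx0n) Set.sdiff_subset
    · push Not at hex
      have hge : m ≤ X'.ncard := by
        by_contra hlt
        push Not at hlt
        have hcard : X'.toFinset.card = X'.ncard := (Set.ncard_eq_toFinset_card' X').symm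
        obtain ⟨i, hi⟩ := exists_disj9 h2 X'.toFinset (by omega)
        obtain ⟨a, ha, haS, _⟩ := hstrong X' hn X'.toFinset (by omega) i hi
        exact haS (Set.mem_toFinset.2 ha)
      rcases eq_or_lt_of_le hge with heq | hlt
      · have hcard : X'.toFinset.card = X'.ncard := (Set.ncard_eq_toFinset_card' X').symm
        have hco : ((X'.toFinset : Finset V) : Set V) = X' := Set.coe_toFinset X'
        have hcm : X'.toFinset.card = m := by omega
        have := LL (Z := X'.toFinset) (PM_of_model h1 h2 h3 _) (by omega)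
          (by rw [hco, hcm]; exact hn)
        rw [hco, hcm] at this
        exact this
      · have hne : X'.Nonempty := by
          rw [← Set.ncard_pos]
          omega
        obtain ⟨x0, hx0⟩ := hne
        have hx0n := hex x0 hx0
        unfold NS at hx0n
        push Not at hx0n
        obtain ⟨S0, hS0, i, _, hi0, hun⟩ := hx0n
        set S : Finset V := insert x0 S0 with hS
        have hSc : S.card ≤ m := (Finset.card_insert_le _ _).trans (by omega)
        obtain ⟨j, hj⟩ := exists_disj9 h2 S (by omega)
        have hj0 : Disjoint (D j) (S0 : Set V) := hj.mono_right (by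
          intro x hx
          exact Finset.mem_insert_of_mem hx)
        have hsub : ((S : Set V)ᶜ) ⊆ ((S0 : Set V)ᶜ) := by
          intro x hx hx'
          exact hx (Finset.mem_insert_of_mem hx')
        have hDj : D j ⊆ ((S0 : Set V)ᶜ) := fun x hx hx' => Set.disjoint_left.1 hj0 hx hx'
        have hDi : D i ⊆ ((S0 : Set V)ᶜ) := fun x hx hx' => Set.disjoint_left.1 hi0 hx hx'
        have hsep : ∀ a ∈ X', a ∉ S → ∀ d ∈ D j, ¬ RI G ((S : Set V)ᶜ) a d := by
          intro a ha haS d hd hr
          have ha0 : a ≠ x0 := by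
            rintro rfl
            exact haS (Finset.mem_insert_self _ _)
          have haS0 : a ∉ S0 := fun h => haS (Finset.mem_insert_of_mem h)
          have hr0 : RI G ((S0 : Set V)ᶜ) a d := hr.monoS hsub
          by_cases hij : j = i
          · subst hij
            exact hun a ⟨ha, ha0⟩ haS0 d hd hr0
          · obtain ⟨u, hu, v, hv, huv⟩ := h3 j i hij
            have hr1 : RI G ((S0 : Set V)ᶜ) d u := ((h1 j).2 d hd u hu).monoS hDj
            exact hun a ⟨ha, ha0⟩ haS0 v hv
              (hr0.trans (hr1.trans (RI.single huv (hDj hu) (hDi hv))))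
        have hSm : S.card = m := by
          by_contra hne
          obtain ⟨a, ha, haS, d, hd, hr⟩ := hstrong X' hn S (by omega) j hj
          exact hsep a ha haS d hd hr
        have hjX : Disjoint (D j) X' := by
          rw [Set.disjoint_left]
          intro a ha haX
          exact hsep a haX (fun h => Set.disjoint_left.1 hj ha h) a ha (RI.refl _)
        have hPM := PM_of_model h1 h2 h3 X'
        have p2 := (far_PM hPM S j hjX hj hsep).2
        have p3 := far_NS hPM S j hjX hj hsep S.card (by rw [hSm]; exact hn)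
        have p8 := LL p2 (by omega) p3
        obtain ⟨C, hC1, hC2⟩ := far_link S (by rw [hSm]; exact hn) j hjX hj hsep
        have p5 := far_combine hC1 hC2 p8
        rw [hSm] at p5
        exact p5
  exact main _ X rfl hns

end Pool.Agent.Lib.MP_09e206_co
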