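import Pool.Agent.Lib.MP_09e206_co.L.Defs
import Pool.Agent.Lib.MP_09e206_co.L.P2
import Pool.Agent.Lib.MP_09e206_co.L.P3
import Pool.Agent.Lib.MP_09e206_co.L.P8
import Pool.Agent.Lib.MP_09e206_co.L.P9
import Pool.Agent.Lib.MP_09e206_co.L.P10

namespace Pool.Agent.Lib.MP_09e206_co

open Pool.Agent.Lib.MP_4332cb_co

variable {V : Type*}

lemma PK.not_colorable {W : Type} {G : SimpleGraph W} {X : Set W} {k : ℕ} (hk : 1 ≤ k)
    (h : PK k G X) : ¬ G.Colorable (k - 1) := by
  rintro ⟨c⟩
  have hle : k - 1 ≤ k := by omega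
  let c' : G.Coloring (Fin k) := SimpleGraph.Coloring.mk (fun v => Fin.castLE hle (c v)) (by
    intro u v huv he
    exact c.valid huv (Fin.castLE_injective hle he))
  obtain ⟨x, -, hcx⟩ := h.2 c' ⟨k - 1, by omega⟩
  have h1 : (c' x).val = (c x).val := rfl
  have h2 := (c x).2
  rw [hcx] at h1
  simp only at h1
  omega

/-- [P11] **Theorem A** -/
theorem thmA (k t m : ℕ) (ht : 2 * m ≤ t) (hm : 1 ≤ m)
    (hH : ∀ (W : Type) [Fintype W] (G : SimpleGraph W), ¬ G.Colorable (k - 1) → KM G t) :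
    ∀ (n : ℕ) (W : Type) [Fintype W] (G : SimpleGraph W) (X : Set W), Fintype.card W = n →
      1 ≤ k → PK k G X → RK G X m := by
  classical
  intro n
  induction n using Nat.strong_induction_on with
  | _ n ih =>
    intro W _ G X hn hk hPK
    obtain ⟨D, h1, h2, h3⟩ := hH W G (hPK.not_colorable hk)
    have h3' : ∀ i j, i ≠ j → ∃ u ∈ D i, ∃ v ∈ D j, G.Adj u v := fun i j hij =>
      h3 i j ((SimpleGraph.top_adj _ _).2 hij)
    by_cases hns : NS G X D m
    · exact LL_set h1 h2 h3' ht hm hns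
    · -- a minimal separating set
      have hPM : PM G X D := PM_of_model h1 h2 h3' X
      have hex : ∃ s : ℕ, ∃ S : Finset W, S.card = s ∧ ∃ i, Disjoint (D i) X ∧
          Disjoint (D i) (S : Set W) ∧ ∀ a ∈ X, a ∉ S → ∀ d ∈ D i, ¬ RI G ((S : Set W)ᶜ) a d := by
        unfold NS at hns
        push Not at hns
        obtain ⟨S, hS, i, h0, h0S, hsep⟩ := hns
        exact ⟨S.card, S, rfl, i, h0, h0S, hsep⟩
      have hlt : Nat.find hex < m := by
        unfold NS at hns
        push Not at hns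
        obtain ⟨S, hS, i, h0, h0S, hsep⟩ := hns
        exact lt_of_le_of_lt (Nat.find_min' hex ⟨S, rfl, i, h0, h0S, hsep⟩) hS
      obtain ⟨S, hS, i, h0, h0S, hsep⟩ := Nat.find_spec hex
      have hSm : S.card < m := by omega
      have hns' : NS G X D S.card := by
        intro T hT j hj hjT
        by_contra hcon
        push Not at hcon
        have := Nat.find_min' hex ⟨T, rfl, j, hj, hjT, hcon⟩
        omega
      obtain ⟨hsub, hPM'⟩ := far_PM hPM S i h0 h0S hsep
      have hns2 := far_NS hPM S i h0 h0S hsep S.card hns'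
      have hRK := LL hPM' (by omega) hns2
      have hne : (farS G X S).Nonempty := (h1 i).1.mono hsub
      obtain ⟨W', _, G', X', hcard, hPK', hlift⟩ := sep_step hPK S hne hRK
      exact hlift m (ih _ (hn ▸ hcard) W' G' X' rfl hk hPK')

end Pool.Agent.Lib.MP_09e206_co
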